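import Mathlib

/-!
The superadditive hull of h(A) = 1 - v / A (scaled): G m y is the maximum over k ≤ m of
k - v k ^ 2 / y, cut off near 0.
-/

namespace Pool.Agent.R737.Greedy

/-- the k-part value -/
noncomputable def part (v : ℝ) (k : ℕ) (y : ℝ) : ℝ := (k : ℝ) - v * (k : ℝ) ^ 2 / max y (v / 2)

/-- maximum of the k-part values over k ≤ m -/
noncomputable def hull (v : ℝ) : ℕ → ℝ → ℝ
  | 0, _ => 0
  | (m + 1), y => max (hull v m y) (part v (m + 1) y)

lemma part_zero (v y : ℝ) : part v 0 y = 0 := by simp [part]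

lemma continuous_part (v : ℝ) (hv : 0 < v) (k : ℕ) : Continuous (part v k) := by
  unfold part
  refine continuous_const.sub (continuous_const.div (continuous_id.max continuous_const) ?_)
  intro y
  exact (lt_of_lt_of_le (half_pos hv) (le_max_right _ _)).ne'

lemma monotone_part (v : ℝ) (hv : 0 < v) (k : ℕ) : Monotone (part v k) := by
  intro x y hxy
  unfold part
  have h1 : 0 < max x (v / 2) := lt_of_lt_of_le (half_pos hv) (le_max_right _ _)
  have h2 : max x (v / 2) ≤ max y (v / 2) := max_le_max hxy le_rfl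
  have h3 : v * (k : ℝ) ^ 2 / max y (v / 2) ≤ v * (k : ℝ) ^ 2 / max x (v / 2) :=
    div_le_div_of_nonneg_left (by positivity) h1 h2
  linarith

lemma continuous_hull (v : ℝ) (hv : 0 < v) : ∀ m : ℕ, Continuous (hull v m)
  | 0 => continuous_const
  | (m + 1) => (continuous_hull v hv m).max (continuous_part v hv (m + 1))

lemma monotone_hull (v : ℝ) (hv : 0 < v) : ∀ m : ℕ, Monotone (hull v m)
  | 0 => fun _ _ _ => le_rfl
  | (m + 1) => fun _ _ hxy =>
      max_le_max (monotone_hull v hv m hxy) (monotone_part v hv (m + 1) hxy)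

lemma part_le_hull (v y : ℝ) : ∀ (m k : ℕ), k ≤ m → part v k y ≤ hull v m y
  | 0, k, hk => by
      obtain rfl : k = 0 := Nat.le_zero.1 hk
      rw [part_zero]
      exact le_rfl
  | (m + 1), k, hk => by
      rcases Nat.of_le_succ hk with h | h
      · exact le_trans (part_le_hull v y m k h) (le_max_left _ _)
      · subst h
        exact le_max_right _ _

lemma exists_hull (v y : ℝ) : ∀ m : ℕ, ∃ k ≤ m, hull v m y = part v k y
  | 0 => ⟨0, le_rfl, (part_zero v y).symm⟩
  | (m + 1) => by
      obtain ⟨k, hk, h⟩ := exists_hull v y m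
      rcases le_total (hull v m y) (part v (m + 1) y) with h' | h'
      · exact ⟨m + 1, le_rfl, max_eq_right h'⟩
      · exact ⟨k, Nat.le_succ_of_le hk, (max_eq_left h').trans h⟩

lemma hull_nonneg (v y : ℝ) (m : ℕ) : 0 ≤ hull v m y := by
  have := part_le_hull v y m 0 (Nat.zero_le m)
  rwa [part_zero] at this

lemma hull_zero (v : ℝ) (hv : 0 < v) (m : ℕ) : hull v m 0 = 0 := by
  refine le_antisymm ?_ (hull_nonneg v 0 m)
  obtain ⟨k, _, h⟩ := exists_hull v 0 m
  rw [h]
  unfold part
  rw [max_eq_right (half_pos hv).le]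
  have : v * (k : ℝ) ^ 2 / (v / 2) = 2 * (k : ℝ) ^ 2 := by
    field_simp
  rw [this]
  rcases Nat.eq_zero_or_pos k with hk | hk
  · subst hk
    simp
  · have : (1 : ℝ) ≤ k := by exact_mod_cast hk
    nlinarith

/-- Superadditivity, from the inequality (k+1)²/(a+A) ≤ k²/a + 1/A. -/
lemma hull_add (v : ℝ) (hv : 0 < v) (m : ℕ) (hm : 1 / v + 1 ≤ m) (a A : ℝ) (ha : 0 ≤ a)
    (hA : 0 < A) (haA : a + A ≤ 1) :
    hull v m a + (1 - v / A) ≤ hull v m (a + A) := by
  have hm1 : 1 ≤ m := by
    by_contra h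
    have : m = 0 := by omega
    subst this
    have : 0 < 1 / v := by positivity
    simp only [Nat.cast_zero] at hm
    linarith
  rcases (hull_nonneg v a m).eq_or_lt with h0 | h0
  · rw [← h0, zero_add]
    by_cases hvA : A ≤ v
    · refine le_trans ?_ (hull_nonneg v (a + A) m)
      rw [sub_nonpos, le_div_iff₀ hA]
      linarith
    · push Not at hvA
      refine le_trans ?_ (part_le_hull v (a + A) m 1 hm1)
      unfold part
      have h1 : A ≤ max (a + A) (v / 2) := le_trans (by linarith) (le_max_left _ _)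
      have h2 : v * ((1 : ℕ) : ℝ) ^ 2 / max (a + A) (v / 2) ≤ v / A := by
        simp only [Nat.cast_one, one_pow, mul_one]
        exact div_le_div_of_nonneg_left hv.le hA h1
      have h3 : ((1 : ℕ) : ℝ) = 1 := Nat.cast_one
      rw [h3] at h2 ⊢
      linarith
  · obtain ⟨k, hk, h⟩ := exists_hull v a m
    rw [h] at h0 ⊢
    unfold part at h0 ⊢
    have hav : v / 2 < a := by
      by_contra hcon
      push Not at hcon
      rw [max_eq_right hcon] at h0
      have h1 : v * (k : ℝ) ^ 2 / (v / 2) = 2 * (k : ℝ) ^ 2 := by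
        field_simp
      rw [h1] at h0
      rcases Nat.eq_zero_or_pos k with hk0 | hk0
      · subst hk0
        simp at h0
      · have : (1 : ℝ) ≤ k := by exact_mod_cast hk0
        nlinarith
    have ha0 : 0 < a := lt_trans (half_pos hv) hav
    rw [max_eq_left hav.le] at h0 ⊢
    have hk0 : 0 < (k : ℝ) := by
      by_contra hcon
      push Not at hcon
      have hk' : (k : ℝ) = 0 := le_antisymm hcon (Nat.cast_nonneg k)
      rw [hk'] at h0
      simp at h0
    have hk1 : v * k < a := by
      have h1 : v * (k : ℝ) ^ 2 / a < k := by linarith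
      rw [div_lt_iff₀ ha0] at h1
      have h2 : k * (v * k) < k * a := by nlinarith
      exact lt_of_mul_lt_mul_left h2 hk0.le
    have hkm : k + 1 ≤ m := by
      have h1 : v * k < 1 := by linarith
      have h2 : (k : ℝ) < 1 / v := by
        rw [lt_div_iff₀ hv]
        linarith
      have h3 : ((k + 1 : ℕ) : ℝ) < m := by
        push_cast
        linarith
      exact le_of_lt (by exact_mod_cast h3)
    refine le_trans ?_ (part_le_hull v (a + A) m (k + 1) hkm)
    unfold part
    rw [max_eq_left (by linarith : v / 2 ≤ a + A)]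
    have key : v * ((k + 1 : ℕ) : ℝ) ^ 2 / (a + A) ≤ v * (k : ℝ) ^ 2 / a + v / A := by
      have hpos : 0 < a + A := by linarith
      have h1 : v * (k : ℝ) ^ 2 / a + v / A - v * ((k + 1 : ℕ) : ℝ) ^ 2 / (a + A)
          = v * ((k : ℝ) * A - a) ^ 2 / (a * A * (a + A)) := by
        push_cast
        field_simp
        ring
      have h2 : 0 ≤ v * ((k : ℝ) * A - a) ^ 2 / (a * A * (a + A)) := by positivity
      linarith
    push_cast at key ⊢
    linarith

/-- The hull at 1 is at most 1 + β if v dominates all (k - 1 - β)/k². -/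
lemma hull_one (v β : ℝ) (hv : 0 < v) (hv2 : v ≤ 2) (hβ : 0 ≤ β)
    (hdom : ∀ k : ℕ, 1 ≤ k → ((k : ℝ) - 1 - β) / (k : ℝ) ^ 2 ≤ v) (m : ℕ) :
    hull v m 1 ≤ 1 + β := by
  obtain ⟨k, _, h⟩ := exists_hull v 1 m
  rw [h]
  unfold part
  rw [max_eq_left (by linarith : v / 2 ≤ 1), div_one]
  rcases Nat.eq_zero_or_pos k with hk0 | hk0
  · subst hk0
    simp
    linarith
  · have h1 := hdom k hk0
    have h2 : (0 : ℝ) < (k : ℝ) ^ 2 := by positivity
    rw [div_le_iff₀ h2] at h1
    linarith

end Pool.Agent.R737.Greedy
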