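import Pool.Agent.R737.Greedy.Defs
import Pool.Agent.R737.Greedy.Hull

/-!
BLUE holds RED to v = max (n - 1 - β) / n ^ 2: the distribution function is the superadditive
hull divided by 1 + β, with the remaining mass at 1.
-/

open MeasureTheory Set
open scoped ENNReal

namespace Pool.Agent.R737.Greedy

/-- the distribution function (used only between 0 and 1) -/
noncomputable def cdfFun (v β : ℝ) (hv : 0 < v) (hβ : 0 ≤ β) (m : ℕ) : StieltjesFunction ℝ where
  toFun y := hull v m y / (1 + β)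
  mono' := fun _ _ h => div_le_div_of_nonneg_right (monotone_hull v hv m h) (by linarith)
  right_continuous' := fun _ =>
    ((continuous_hull v hv m).div_const (1 + β)).continuousWithinAt

lemma cdfFun_apply (v β : ℝ) (hv : 0 < v) (hβ : 0 ≤ β) (m : ℕ) (y : ℝ) :
    cdfFun v β hv hβ m y = hull v m y / (1 + β) := rfl

/-- the part of BLUE's distribution given by the distribution function -/
noncomputable def bluePart (v β : ℝ) (hv : 0 < v) (hβ : 0 ≤ β) (m : ℕ) : Measure Blue :=
  (cdfFun v β hv hβ m).measure.comap Subtype.val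

lemma measurableEmbedding_blue : MeasurableEmbedding (Subtype.val : Blue → ℝ) :=
  MeasurableEmbedding.subtype_coe (measurableSet_Icc : MeasurableSet (Set.Icc (0 : ℝ) 1))

lemma bluePart_univ_le (v β : ℝ) (hv : 0 < v) (hβ : 0 ≤ β) (m : ℕ)
    (h1 : hull v m 1 ≤ 1 + β) : bluePart v β hv hβ m univ ≤ 1 := by
  unfold bluePart
  rw [measurableEmbedding_blue.comap_apply, image_univ, Subtype.range_coe_subtype]
  have hset : {x : ℝ | 0 ≤ x ∧ x ≤ 1} = Set.Icc 0 1 := rfl
  rw [hset, StieltjesFunction.measure_Icc]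
  have hl : 0 ≤ Function.leftLim (cdfFun v β hv hβ m) 0 := by
    refine le_trans ?_ ((cdfFun v β hv hβ m).mono.le_leftLim (by norm_num : (-1 : ℝ) < 0))
    rw [cdfFun_apply]
    exact div_nonneg (hull_nonneg v _ m) (by linarith)
  rw [← ENNReal.ofReal_one]
  refine ENNReal.ofReal_le_ofReal ?_
  have h2 : cdfFun v β hv hβ m 1 ≤ 1 := by
    rw [cdfFun_apply, div_le_one (by linarith)]
    exact h1
  linarith

/-- BLUE's mixed strategy -/
noncomputable def blueMix (v β : ℝ) (hv : 0 < v) (hβ : 0 ≤ β) (m : ℕ)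
    (h1 : hull v m 1 ≤ 1 + β) : ProbabilityMeasure Blue :=
  ⟨bluePart v β hv hβ m + (1 - bluePart v β hv hβ m univ) •
      Measure.dirac (⟨1, by norm_num⟩ : Blue), by
    constructor
    simp only [Measure.add_apply, Measure.smul_apply, measure_univ, smul_eq_mul, mul_one]
    exact add_tsub_cancel_of_le (bluePart_univ_le v β hv hβ m h1)⟩

lemma blueMix_interval (v β : ℝ) (hv : 0 < v) (hβ : 0 ≤ β) (m : ℕ)
    (h1 : hull v m 1 ≤ 1 + β) (c : Red) :
    (hull v m (c.1.1 + c.1.2) - hull v m c.1.1) / (1 + β) ≤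
      (blueMix v β hv hβ m h1 : Measure Blue).real
        {q : Blue | (q : ℝ) ∈ Set.Icc c.1.1 (c.1.1 + c.1.2)} := by
  have hc0 := c.2.1
  have hc1 := c.2.2.2
  set s : Set Blue := {q : Blue | (q : ℝ) ∈ Set.Icc c.1.1 (c.1.1 + c.1.2)} with hs
  have himg : Subtype.val '' s = Set.Icc c.1.1 (c.1.1 + c.1.2) := by
    ext x
    constructor
    · rintro ⟨q, hq, rfl⟩
      exact hq
    · intro hx
      exact ⟨⟨x, le_trans hc0 hx.1, le_trans hx.2 hc1⟩, hx, rfl⟩
  have hlow : ENNReal.ofReal ((hull v m (c.1.1 + c.1.2) - hull v m c.1.1) / (1 + β))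
      ≤ (blueMix v β hv hβ m h1 : Measure Blue) s := by
    show _ ≤ (bluePart v β hv hβ m + (1 - bluePart v β hv hβ m univ) •
      Measure.dirac (⟨1, by norm_num⟩ : Blue)) s
    rw [Measure.add_apply]
    refine le_trans ?_ le_self_add
    unfold bluePart
    rw [measurableEmbedding_blue.comap_apply, himg]
    refine le_trans ?_ (measure_mono Set.Ioc_subset_Icc_self)
    rw [StieltjesFunction.measure_Ioc, cdfFun_apply, cdfFun_apply, sub_div]
  have hfin : (blueMix v β hv hβ m h1 : Measure Blue) s ≠ ⊤ := measure_ne_top _ _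
  exact (ENNReal.ofReal_le_iff_le_toReal hfin).1 hlow

lemma integral_payoff_blue (β : ℝ) (ν : ProbabilityMeasure Blue) (c : Red) :
    ∫ p, payoff β c p ∂(ν : Measure Blue)
      = c.1.2 - (1 + β) * c.1.2 * (ν : Measure Blue).real
        {q : Blue | (q : ℝ) ∈ Set.Icc c.1.1 (c.1.1 + c.1.2)} := by
  have hms : MeasurableSet {q : Blue | (q : ℝ) ∈ Set.Icc c.1.1 (c.1.1 + c.1.2)} :=
    measurable_subtype_coe measurableSet_Icc
  have hint : Integrable (Set.indicator {q : Blue | (q : ℝ) ∈ Set.Icc c.1.1 (c.1.1 + c.1.2)}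
      (fun _ => (1 : ℝ))) (ν : Measure Blue) :=
    (integrable_const (1 : ℝ)).indicator hms
  simp_rw [payoff_eq]
  rw [integral_sub (integrable_const _) (hint.const_mul _), integral_const_mul,
    integral_indicator_const _ hms]
  simp

/-- BLUE's guarantee. -/
lemma blue_guarantee (β : ℝ) (hβ : 0 ≤ β) (v : ℝ) (hv : 0 < v) (hv2 : v ≤ 2)
    (hdom : ∀ k : ℕ, 1 ≤ k → ((k : ℝ) - 1 - β) / (k : ℝ) ^ 2 ≤ v) :
    ∃ ν : ProbabilityMeasure Blue, ∀ μ : ProbabilityMeasure Red, expPay β μ ν ≤ v := by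
  obtain ⟨m, hm⟩ := exists_nat_ge (1 / v + 1)
  have h1 := hull_one v β hv hv2 hβ hdom m
  refine ⟨blueMix v β hv hβ m h1, fun μ => expPay_le β hβ μ _ v fun c => ?_⟩
  rw [integral_payoff_blue]
  have hlen := red_len_nonneg c
  rcases hlen.eq_or_lt with h0 | h0
  · rw [← h0]
    simp
    exact hv.le
  · have h2 := blueMix_interval v β hv hβ m h1 c
    have h3 := hull_add v hv m hm c.1.1 c.1.2 c.2.1 h0 c.2.2.2
    have h4 : (1 - v / c.1.2) / (1 + β) ≤
        (hull v m (c.1.1 + c.1.2) - hull v m c.1.1) / (1 + β) :=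
      div_le_div_of_nonneg_right (by linarith) (by linarith)
    have h5 := le_trans h4 h2
    have h6 : (1 + β) * c.1.2 * ((1 - v / c.1.2) / (1 + β)) = c.1.2 - v := by
      have : (1 + β) ≠ 0 := by linarith
      field_simp
    have h7 : (1 + β) * c.1.2 * ((1 - v / c.1.2) / (1 + β)) ≤ (1 + β) * c.1.2 *
        (blueMix v β hv hβ m h1 : Measure Blue).real
          {q : Blue | (q : ℝ) ∈ Set.Icc c.1.1 (c.1.1 + c.1.2)} :=
      mul_le_mul_of_nonneg_left h5 (by positivity)
    linarith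

end Pool.Agent.R737.Greedy
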