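import Mathlib

/-!
The point-versus-interval game on the unit interval (MP_d7d923_pr): definitions.
-/

open MeasureTheory Set

namespace Pool.Agent.R737.Greedy

/-- RED's pure strategies: pairs (a, A) with 0 ≤ a ≤ a + A ≤ 1, coding the closed interval
from a to a + A. -/
abbrev Red : Type := {c : ℝ × ℝ // 0 ≤ c.1 ∧ c.1 ≤ c.1 + c.2 ∧ c.1 + c.2 ≤ 1}

/-- BLUE's pure strategies: points of the unit interval. -/
abbrev Blue : Type := {p : ℝ // 0 ≤ p ∧ p ≤ 1}

/-- Payoff to RED: A if the point is not in the interval, and - β A if it is. -/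
noncomputable def payoff (β : ℝ) (c : Red) (p : Blue) : ℝ :=
  if (p : ℝ) ∈ Set.Icc c.1.1 (c.1.1 + c.1.2) then -(β * c.1.2) else c.1.2

/-- Expected payoff for two independent mixed strategies. -/
noncomputable def expPay (β : ℝ) (μ : ProbabilityMeasure Red) (ν : ProbabilityMeasure Blue) : ℝ :=
  ∫ z : Red × Blue, payoff β z.1 z.2 ∂((μ : Measure Red).prod (ν : Measure Blue))

/-- Lower value: sup over RED's mixed strategies of the inf over BLUE's mixed strategies. -/
noncomputable def lowerValue (β : ℝ) : EReal :=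
  ⨆ μ : ProbabilityMeasure Red, ⨅ ν : ProbabilityMeasure Blue, ((expPay β μ ν : ℝ) : EReal)

/-- Upper value: inf over BLUE's mixed strategies of the sup over RED's mixed strategies. -/
noncomputable def upperValue (β : ℝ) : EReal :=
  ⨅ ν : ProbabilityMeasure Blue, ⨆ μ : ProbabilityMeasure Red, ((expPay β μ ν : ℝ) : EReal)

/-- The numbers (n - 1 - β) / n ^ 2 with n a positive integer. -/
def candidates (β : ℝ) : Set ℝ :=
  {x | ∃ n : ℤ, 1 ≤ n ∧ x = ((n : ℝ) - 1 - β) / (n : ℝ) ^ 2}

/-! ### Basic facts on the payoff -/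

lemma payoff_eq (β : ℝ) (c : Red) (p : Blue) :
    payoff β c p = c.1.2 - (1 + β) * c.1.2 *
      Set.indicator {q : Blue | (q : ℝ) ∈ Set.Icc c.1.1 (c.1.1 + c.1.2)} (fun _ => (1 : ℝ)) p := by
  unfold payoff
  by_cases h : (p : ℝ) ∈ Set.Icc c.1.1 (c.1.1 + c.1.2)
  · rw [if_pos h, Set.indicator_of_mem (by exact h)]
    ring
  · rw [if_neg h, Set.indicator_of_notMem (by exact h)]
    ring

lemma red_len_nonneg (c : Red) : 0 ≤ c.1.2 := by
  have := c.2.2.1
  linarith

lemma red_len_le (c : Red) : c.1.2 ≤ 1 := by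
  have h1 := c.2.1
  have h2 := c.2.2.2
  linarith

lemma abs_payoff_le (β : ℝ) (hβ : 0 ≤ β) (c : Red) (p : Blue) : ‖payoff β c p‖ ≤ 1 + β := by
  have h0 := red_len_nonneg c
  have h1 := red_len_le c
  rw [Real.norm_eq_abs]
  unfold payoff
  split_ifs
  · rw [abs_neg, abs_of_nonneg (mul_nonneg hβ h0)]
    nlinarith
  · rw [abs_of_nonneg h0]
    linarith

lemma measurable_payoff (β : ℝ) : Measurable (fun z : Red × Blue => payoff β z.1 z.2) := by
  unfold payoff
  have ha : Measurable (fun z : Red × Blue => z.1.1.1) :=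
    measurable_fst.comp (measurable_subtype_coe.comp measurable_fst)
  have hA : Measurable (fun z : Red × Blue => z.1.1.2) :=
    measurable_snd.comp (measurable_subtype_coe.comp measurable_fst)
  have hp : Measurable (fun z : Red × Blue => (z.2 : ℝ)) :=
    measurable_subtype_coe.comp measurable_snd
  refine Measurable.ite ?_ ((hA.const_mul β).neg) hA
  exact (measurableSet_le ha hp).inter (measurableSet_le hp (ha.add hA))

lemma integrable_payoff (β : ℝ) (hβ : 0 ≤ β) (μ : ProbabilityMeasure Red)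
    (ν : ProbabilityMeasure Blue) :
    Integrable (fun z : Red × Blue => payoff β z.1 z.2)
      ((μ : Measure Red).prod (ν : Measure Blue)) :=
  Integrable.of_bound (measurable_payoff β).aestronglyMeasurable (1 + β)
    (Filter.Eventually.of_forall fun z => abs_payoff_le β hβ z.1 z.2)

lemma expPay_ge (β : ℝ) (hβ : 0 ≤ β) (μ : ProbabilityMeasure Red) (ν : ProbabilityMeasure Blue)
    (r : ℝ) (h : ∀ p : Blue, r ≤ ∫ c, payoff β c p ∂(μ : Measure Red)) :
    r ≤ expPay β μ ν := by
  have hi := integrable_payoff β hβ μ ν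
  unfold expPay
  rw [integral_prod_symm _ hi]
  calc r = ∫ _p : Blue, r ∂(ν : Measure Blue) := by simp
    _ ≤ _ := integral_mono (integrable_const r) hi.integral_prod_right (fun p => h p)

lemma expPay_le (β : ℝ) (hβ : 0 ≤ β) (μ : ProbabilityMeasure Red) (ν : ProbabilityMeasure Blue)
    (r : ℝ) (h : ∀ c : Red, ∫ p, payoff β c p ∂(ν : Measure Blue) ≤ r) :
    expPay β μ ν ≤ r := by
  have hi := integrable_payoff β hβ μ ν
  unfold expPay
  rw [integral_prod _ hi]
  calc _ ≤ ∫ _c : Red, r ∂(μ : Measure Red) :=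
        integral_mono hi.integral_prod_left (integrable_const r) (fun c => h c)
    _ = r := by simp

end Pool.Agent.R737.Greedy
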