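import Pool.Agent.R737.Greedy.Defs

/-!
RED guarantees (n - 1 - β) / n ^ 2 - ε: uniform choice among n slightly shrunk equal intervals.
-/

open MeasureTheory Set
open scoped BigOperators ENNReal

namespace Pool.Agent.R737.Greedy

/-- the interval from i/n of length 1/n - δ -/
noncomputable def cell (n : ℕ) (hn : 0 < n) (δ : ℝ) (hδ0 : 0 < δ) (hδ : δ < 1 / n)
    (i : Fin n) : Red :=
  ⟨((i : ℝ) / n, 1 / n - δ), by
    have hn' : (0 : ℝ) < n := by exact_mod_cast hn
    have hi : ((i : ℕ) : ℝ) + 1 ≤ n := by exact_mod_cast i.2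
    refine ⟨by positivity, ?_, ?_⟩
    · show (i : ℝ) / n ≤ (i : ℝ) / n + (1 / n - δ)
      linarith
    · show (i : ℝ) / n + (1 / n - δ) ≤ 1
      have : (i : ℝ) / n + 1 / n ≤ 1 := by
        rw [← add_div, div_le_one hn']
        exact hi
      linarith⟩

/-- the uniform mixture of the n cells -/
noncomputable def redMix (n : ℕ) (hn : 0 < n) (δ : ℝ) (hδ0 : 0 < δ) (hδ : δ < 1 / n) :
    ProbabilityMeasure Red :=
  ⟨∑ i : Fin n, ((n : ℝ≥0∞)⁻¹) • Measure.dirac (cell n hn δ hδ0 hδ i), by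
    constructor
    simp only [Measure.coe_finset_sum, Finset.sum_apply, Measure.smul_apply, measure_univ,
      smul_eq_mul, mul_one, Finset.sum_const, Finset.card_univ, Fintype.card_fin, nsmul_eq_mul]
    exact ENNReal.mul_inv_cancel (by exact_mod_cast hn.ne') (ENNReal.natCast_ne_top n)⟩

lemma integral_redMix (n : ℕ) (hn : 0 < n) (δ : ℝ) (hδ0 : 0 < δ) (hδ : δ < 1 / n)
    (β : ℝ) (hβ : 0 ≤ β) (p : Blue) :
    ∫ c, payoff β c p ∂(redMix n hn δ hδ0 hδ : Measure Red)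
      = ∑ i : Fin n, (1 / n : ℝ) * payoff β (cell n hn δ hδ0 hδ i) p := by
  have hmeas : Measurable (fun c : Red => payoff β c p) :=
    (measurable_payoff β).comp (measurable_id.prodMk measurable_const)
  show ∫ c, payoff β c p ∂(∑ i : Fin n, ((n : ℝ≥0∞)⁻¹) •
    Measure.dirac (cell n hn δ hδ0 hδ i)) = _
  rw [integral_finset_sum_measure]
  · refine Finset.sum_congr rfl fun i _ => ?_
    rw [integral_smul_measure, integral_dirac]
    simp
  · intro i _
    refine Integrable.smul_measure ?_ ?_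
    · exact Integrable.of_bound hmeas.aestronglyMeasurable (1 + β)
        (Filter.Eventually.of_forall fun c => abs_payoff_le β hβ c p)
    · exact ENNReal.inv_ne_top.2 (by exact_mod_cast hn.ne')

lemma sum_payoff_ge (n : ℕ) (hn : 0 < n) (δ : ℝ) (hδ0 : 0 < δ) (hδ : δ < 1 / n)
    (β : ℝ) (hβ : 0 ≤ β) (p : Blue) :
    (1 / n - δ) * ((n : ℝ) - 1 - β) ≤ ∑ i : Fin n, payoff β (cell n hn δ hδ0 hδ i) p := by
  classical
  have hn' : (0 : ℝ) < n := by exact_mod_cast hn
  set S : Finset (Fin n) := Finset.univ.filter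
    (fun i : Fin n => (p : ℝ) ∈ Set.Icc ((i : ℝ) / n) ((i : ℝ) / n + (1 / n - δ))) with hS
  have hcard : S.card ≤ 1 := by
    rw [Finset.card_le_one]
    have key : ∀ i ∈ S, ∀ j ∈ S, ¬ (i : ℕ) < (j : ℕ) := by
      intro i hi j hj hij
      rw [hS, Finset.mem_filter] at hi hj
      have h1 := hi.2.2
      have h2 := hj.2.1
      have h3 : ((i : ℕ) : ℝ) + 1 ≤ ((j : ℕ) : ℝ) := by exact_mod_cast hij
      have h4 : (i : ℝ) / n + 1 / n ≤ (j : ℝ) / n := by
        rw [← add_div]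
        exact div_le_div_of_nonneg_right h3 hn'.le
      linarith
    intro i hi j hj
    apply Fin.ext
    exact le_antisymm (not_lt.1 (key j hj i hi)) (not_lt.1 (key i hi j hj))
  have hval : ∀ i : Fin n, payoff β (cell n hn δ hδ0 hδ i) p
      = (1 / n - δ) - (if i ∈ S then (1 + β) * (1 / n - δ) else 0) := by
    intro i
    unfold payoff
    by_cases h : (p : ℝ) ∈ Set.Icc ((i : ℝ) / n) ((i : ℝ) / n + (1 / n - δ))
    · have hi : i ∈ S := by
        rw [hS, Finset.mem_filter]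
        exact ⟨Finset.mem_univ _, h⟩
      rw [if_pos (show (p : ℝ) ∈ Set.Icc (cell n hn δ hδ0 hδ i).1.1
        ((cell n hn δ hδ0 hδ i).1.1 + (cell n hn δ hδ0 hδ i).1.2) from h), if_pos hi]
      show -(β * (1 / n - δ)) = _
      ring
    · have hi : i ∉ S := by
        rw [hS, Finset.mem_filter]
        exact fun h' => h h'.2
      rw [if_neg (show ¬ (p : ℝ) ∈ Set.Icc (cell n hn δ hδ0 hδ i).1.1
        ((cell n hn δ hδ0 hδ i).1.1 + (cell n hn δ hδ0 hδ i).1.2) from h), if_neg hi]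
      show (1 / n - δ) = _
      ring
  rw [Finset.sum_congr rfl (fun i _ => hval i), Finset.sum_sub_distrib, Finset.sum_const,
    Finset.card_univ, Fintype.card_fin, nsmul_eq_mul, Finset.sum_ite_mem, Finset.univ_inter,
    Finset.sum_const, nsmul_eq_mul]
  have hc : (S.card : ℝ) ≤ 1 := by exact_mod_cast hcard
  have hA : 0 < 1 / (n : ℝ) - δ := by linarith
  have : (S.card : ℝ) * ((1 + β) * (1 / n - δ)) ≤ 1 * ((1 + β) * (1 / n - δ)) :=
    mul_le_mul_of_nonneg_right hc (by positivity)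
  nlinarith

/-- RED guarantees the n-cell value up to ε. -/
lemma red_guarantee (β : ℝ) (hβ : 0 ≤ β) (n : ℕ) (hn : 0 < n) (hnb : 0 ≤ (n : ℝ) - 1 - β)
    (ε : ℝ) (hε : 0 < ε) :
    ∃ μ : ProbabilityMeasure Red, ∀ ν : ProbabilityMeasure Blue,
      ((n : ℝ) - 1 - β) / (n : ℝ) ^ 2 - ε ≤ expPay β μ ν := by
  have hn' : (0 : ℝ) < n := by exact_mod_cast hn
  set δ : ℝ := min ε (1 / (2 * n)) with hδd
  have hδ0 : 0 < δ := lt_min hε (by positivity)
  have hδ : δ < 1 / n := by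
    refine lt_of_le_of_lt (min_le_right _ _) ?_
    rw [div_lt_div_iff₀ (by positivity) hn']
    linarith
  refine ⟨redMix n hn δ hδ0 hδ, fun ν => expPay_ge β hβ _ ν _ fun p => ?_⟩
  rw [integral_redMix n hn δ hδ0 hδ β hβ p, ← Finset.mul_sum]
  have h1 := sum_payoff_ge n hn δ hδ0 hδ β hβ p
  have h2 : (1 / n : ℝ) * ((1 / n - δ) * ((n : ℝ) - 1 - β))
      ≤ (1 / n : ℝ) * ∑ i : Fin n, payoff β (cell n hn δ hδ0 hδ i) p :=
    mul_le_mul_of_nonneg_left h1 (by positivity)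
  refine le_trans ?_ h2
  have h3 : (1 / n : ℝ) * ((1 / n - δ) * ((n : ℝ) - 1 - β))
      = ((n : ℝ) - 1 - β) / (n : ℝ) ^ 2 - δ * (((n : ℝ) - 1 - β) / n) := by
    field_simp
  rw [h3]
  have h4 : ((n : ℝ) - 1 - β) / n ≤ 1 := by
    rw [div_le_one hn']
    linarith
  have h5 : δ ≤ ε := min_le_left _ _
  have h6 : δ * (((n : ℝ) - 1 - β) / n) ≤ ε * 1 :=
    mul_le_mul h5 h4 (div_nonneg hnb hn'.le) hε.le
  linarith

end Pool.Agent.R737.Greedy
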